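import Pool.Agent.helper24.ISL.Spec

set_option autoImplicit false

namespace Pool.Agent.ISL

open Matrix Filter Topology

theorem TR_mat {n : ℕ} {F : Type} [Field F] (y : SL n F) (i j : Fin n) (hij : i ≠ j) (s : F) (a b : Fin n) :
    (y * Matrix.SpecialLinearGroup.transvection hij s * y⁻¹ : SL n F) a b
      = (1 : Mat n F) a b + s * (y a i * (y⁻¹ : SL n F) j b) := by
  have h1 : ((y * Matrix.SpecialLinearGroup.transvection hij s * y⁻¹ : SL n F) : Mat n F)
      = 1 + (y : Mat n F) * Matrix.single i j s * ((y⁻¹ : SL n F) : Mat n F) := by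
    rw [Matrix.SpecialLinearGroup.coe_mul, Matrix.SpecialLinearGroup.coe_mul,
      Matrix.SpecialLinearGroup.transvection_coe, Matrix.mul_add, Matrix.add_mul, Matrix.mul_one,
      ← Matrix.SpecialLinearGroup.coe_mul, mul_inv_cancel, Matrix.SpecialLinearGroup.coe_one]
  show ((y * Matrix.SpecialLinearGroup.transvection hij s * y⁻¹ : SL n F) : Mat n F) a b = _
  rw [h1, Matrix.add_apply]
  congr 1
  rw [Matrix.mul_apply, Finset.sum_eq_single j]
  · rw [Matrix.mul_apply, Finset.sum_eq_single i]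
    · rw [Matrix.single_apply_same]
      ring
    · intro c _ hc
      rw [Matrix.single_apply_of_row_ne (Ne.symm hc), mul_zero]
    · intro h; exact absurd (Finset.mem_univ _) h
  · intro c _ hc
    rw [Matrix.mul_apply, Finset.sum_eq_zero, zero_mul]
    intro d _
    rw [Matrix.single_apply_of_col_ne _ _ (Ne.symm hc), mul_zero]
  · intro h; exact absurd (Finset.mem_univ _) h

theorem TR_pow {n : ℕ} (i j : Fin n) (hij : i ≠ j) (M : ℕ) :
    (Matrix.SpecialLinearGroup.transvection hij (1 : ℚ)) ^ M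
      = Matrix.SpecialLinearGroup.transvection hij (M : ℚ) := by
  induction M with
  | zero =>
    rw [pow_zero, Nat.cast_zero, Matrix.SpecialLinearGroup.transvection_coeff_zero]
  | succ M ih =>
    rw [pow_succ, ih, Nat.cast_succ, Matrix.SpecialLinearGroup.transvection_add]

theorem TR_den {n : ℕ} (f : Fin n → Fin n → ℚ) : ∃ k : ℕ, 0 < k ∧ ∀ i j, ∃ a : ℤ, (k : ℚ) * f i j = a := by
  refine ⟨∏ i, ∏ j, (f i j).den, ?_, ?_⟩
  · exact Finset.prod_pos fun i _ => Finset.prod_pos fun j _ => (f i j).pos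
  · intro i j
    have h1 : (f i j).den ∣ ∏ i, ∏ j, (f i j).den :=
      (Finset.dvd_prod_of_mem (fun j => (f i j).den) (Finset.mem_univ j)).trans
        (Finset.dvd_prod_of_mem (fun i => ∏ j, (f i j).den) (Finset.mem_univ i))
    obtain ⟨c, hc⟩ := h1
    refine ⟨c * (f i j).num, ?_⟩
    rw [hc]
    push_cast
    have h2 : ((f i j).den : ℚ) * f i j = (f i j).num := Rat.den_mul_eq_num (f i j)
    rw [← h2]; ring

theorem TR (h1 : CLO_stmt) : TR_stmt := by
  intro n hn H hH p _ S hpS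
  have hp : p.Prime := Fact.out
  obtain ⟨i, j, hij⟩ : ∃ i j : Fin n, i ≠ j := by
    refine ⟨⟨0, by omega⟩, ⟨1, by omega⟩, ?_⟩
    intro h
    have := congrArg Fin.val h
    simp at this
  obtain ⟨x, hx⟩ := hH (Matrix.SpecialLinearGroup.transvection hij (1 : ℚ))
  obtain ⟨k, hk, hkd⟩ := TR_den fun a b => x a i * (x⁻¹ : SL n ℚ) j b
  have hxx : ((x⁻¹ : SL n ℚ) : Mat n ℚ) * (x : Mat n ℚ) = 1 := by
    rw [← Matrix.SpecialLinearGroup.coe_mul, inv_mul_cancel, Matrix.SpecialLinearGroup.coe_one]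
  have hkQ : (k : ℚ) ≠ 0 := by exact_mod_cast hk.ne'
  refine ⟨fun a => k * x a i, fun b => (x⁻¹ : SL n ℚ) j b, ?_, ?_, ?_, 1, one_pos, ?_⟩
  · intro h
    have h2 : ∀ a, x a i = 0 := by
      intro a
      have := congrFun h a
      exact (mul_eq_zero.1 this).resolve_left hkQ
    have h3 := congrFun (congrFun hxx i) i
    rw [Matrix.mul_apply, Matrix.one_apply_eq, Finset.sum_eq_zero] at h3
    · exact zero_ne_one h3
    · intro a _
      rw [h2 a, mul_zero]
  · intro h
    have h2 : ∀ b, (x⁻¹ : SL n ℚ) j b = 0 := fun b => congrFun h b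
    have h3 := congrFun (congrFun hxx j) j
    rw [Matrix.mul_apply, Matrix.one_apply_eq, Finset.sum_eq_zero] at h3
    · exact zero_ne_one h3
    · intro a _
      rw [h2 a, zero_mul]
  · have h3 := congrFun (congrFun hxx j) i
    rw [Matrix.mul_apply, Matrix.one_apply_ne hij.symm] at h3
    show ∑ a, (x⁻¹ : SL n ℚ) j a * (k * x a i) = 0
    have h4 : ∑ a, (x⁻¹ : SL n ℚ) j a * (k * x a i) = k * ∑ a, (x⁻¹ : SL n ℚ) j a * x a i := by
      rw [Finset.mul_sum]
      exact Finset.sum_congr rfl fun a _ => by ring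
    rw [h4, h3, mul_zero]
  · intro z hz
    have hkey : ∀ a b, (cs ℚ_[p] x * Matrix.SpecialLinearGroup.transvection hij ((k : ℚ_[p]) * z)
        * (cs ℚ_[p] x)⁻¹ : SL n ℚ_[p]) a b
        = (1 : Mat n ℚ_[p]) a b + z * (((k : ℚ) * (x a i * (x⁻¹ : SL n ℚ) j b) : ℚ) : ℚ_[p]) := by
      intro a b
      rw [TR_mat, ← map_inv, cs_apply, cs_apply]
      push_cast
      ring
    refine ⟨cs ℚ_[p] x * Matrix.SpecialLinearGroup.transvection hij ((k : ℚ_[p]) * z) * (cs ℚ_[p] x)⁻¹, ?_, ?_⟩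
    · intro m hm ε hε
      rw [h1]
      intro δ hδ
      obtain ⟨e, m', hm', hme⟩ := Nat.exists_eq_pow_mul_and_not_dvd hm.ne' p hp.ne_one
      have hm'n : ‖(m' : ℚ_[p])‖ = 1 := by
        have h := (Padic.norm_natCast_eq_one_iff (p := p) (n := m')).2
          ((Nat.Prime.coprime_iff_not_dvd hp).2 hm')
        exact h
      have hm'0 : (m' : ℚ_[p]) ≠ 0 := by
        intro h
        rw [h, norm_zero] at hm'n
        exact zero_ne_one hm'n
      have hzm : ‖z / m'‖ ≤ 1 := by
        rw [norm_div, hm'n, div_one]; exact hz.le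
      obtain ⟨w, hw⟩ : ∃ w : ℤ_[p], (w : ℚ_[p]) = z / m' := ⟨⟨z / m', hzm⟩, rfl⟩
      obtain ⟨N, hN⟩ := PadicInt.denseRange_natCast.exists_dist_lt w hδ
      rw [dist_eq_norm] at hN
      have hN2 : ‖z - ((m' * N : ℕ) : ℚ_[p])‖ < δ := by
        have h3 : z - ((m' * N : ℕ) : ℚ_[p]) = m' * (z / m' - N) := by
          push_cast
          field_simp
        rw [h3, norm_mul, hm'n, one_mul]
        have h4 : ‖w - (N : ℤ_[p])‖ = ‖z / m' - (N : ℚ_[p])‖ := by
          rw [PadicInt.norm_def]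
          push_cast
          rw [hw]
        rw [← h4]; exact hN
      refine ⟨x * Matrix.SpecialLinearGroup.transvection hij ((k * (m' * N) : ℕ) : ℚ) * x⁻¹, ⟨?_, ?_, ?_⟩, ?_⟩
      · rw [← TR_pow, ← conj_pow]
        exact H.pow_mem hx _
      · intro a b
        rw [TR_mat, add_sub_cancel_left]
        obtain ⟨c, hc⟩ := hkd a b
        have h5 : ((k * (m' * N) : ℕ) : ℚ) * (x a i * (x⁻¹ : SL n ℚ) j b) = (m' * N : ℚ) * c := by
          rw [← hc]; push_cast; ring
        rw [h5]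
        intro q hq hqS
        have hqp : q ≠ p := by rintro rfl; exact hqS hpS
        have hqf : Fact q.Prime := ⟨hq⟩
        have h6 := (Dv.nat_mul (S := S) m' N).mul (Dv.int (S := S) c) q hq hqS
        rw [mul_one] at h6
        refine h6.trans (le_of_eq ?_)
        rw [hme]
        push_cast
        rw [padicNorm.mul]
        have h7 : padicNorm q ((p : ℚ) ^ e) = 1 := by
          have h8 : padicNorm q ((p ^ e : ℕ) : ℚ) = 1 := by
            rw [padicNorm.nat_eq_one_iff]
            intro h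
            exact hqp ((Nat.prime_dvd_prime_iff_eq hq hp).1 (hq.dvd_of_dvd_pow h))
          rwa [Nat.cast_pow] at h8
        rw [h7, one_mul]
      · intro h; exact absurd h (by decide)
      · intro a b
        rw [hkey, TR_mat]
        obtain ⟨c, hc⟩ := hkd a b
        have h5 : (((1 : Mat n ℚ) a b + ((k * (m' * N) : ℕ) : ℚ) * (x a i * (x⁻¹ : SL n ℚ) j b) : ℚ) : ℚ_[p])
            - ((1 : Mat n ℚ_[p]) a b + z * (((k : ℚ) * (x a i * (x⁻¹ : SL n ℚ) j b) : ℚ) : ℚ_[p]))
            = -((z - ((m' * N : ℕ) : ℚ_[p])) * (c : ℚ_[p])) := by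
          have h6 : ((k * (m' * N) : ℕ) : ℚ) * (x a i * (x⁻¹ : SL n ℚ) j b) = (m' * N : ℚ) * c := by
            rw [← hc]; push_cast; ring
          have h7 : (((1 : Mat n ℚ) a b : ℚ) : ℚ_[p]) = (1 : Mat n ℚ_[p]) a b := by
            rw [Matrix.one_apply, Matrix.one_apply]
            split_ifs <;> simp
          rw [h6, hc, Rat.cast_add, h7]
          push_cast
          ring
        rw [h5, norm_neg, norm_mul]
        calc ‖z - ((m' * N : ℕ) : ℚ_[p])‖ * ‖(c : ℚ_[p])‖ ≤ ‖z - ((m' * N : ℕ) : ℚ_[p])‖ * 1 :=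
              mul_le_mul_of_nonneg_left (Padic.norm_int_le_one c) (norm_nonneg _)
          _ < δ := by rw [mul_one]; exact hN2
    · ext a b
      show (cs ℚ_[p] x * Matrix.SpecialLinearGroup.transvection hij ((k : ℚ_[p]) * z)
        * (cs ℚ_[p] x)⁻¹ : SL n ℚ_[p]) a b = _
      rw [hkey, Matrix.add_apply, Matrix.smul_apply, smul_eq_mul, rk, Matrix.vecMulVec_apply]
      congr 2
      simp only [cv]
      push_cast
      ring

end Pool.Agent.ISL
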